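import Pool.Agent.ATB.Stmts

/-!
# Squad ATB, row J00 (helper10): the sum over the subspaces is direct
-/

set_option autoImplicit false

namespace Pool.Agent.ATB.H10

open scoped TensorProduct
open Pool.Agent.ATB

section

variable {K : Type} [Field K] {n : ℕ}

theorem ins_card_le (Z : Multiset (Fin n → K)) (H : Submodule K (Fin n → K)) :
    (ins Z H).card ≤ Z.card := by
  classical
  unfold ins
  exact Multiset.card_le_card (Multiset.filter_le _ _)

theorem ins_card_lt {B : Multiset (Fin n → K)} {H : Submodule K (Fin n → K)}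
    (h : ¬ sp B ≤ H) : (ins B H).card < B.card := by
  classical
  have h1 : ∃ z ∈ B, z ∉ H := by
    by_contra hcon
    push Not at hcon
    exact h (sp_le.2 hcon)
  obtain ⟨z, hz, hzH⟩ := h1
  have h2 : z ∈ out B H := mem_out.2 ⟨hz, hzH⟩
  have h3 : 0 < (out B H).card := Multiset.card_pos.2 fun h0 => by
    rw [h0] at h2
    exact Multiset.notMem_zero _ h2
  have h4 := congrArg Multiset.card (ins_add_out B H)
  rw [Multiset.card_add] at h4
  omega

theorem ins_eq_zero {Z : Multiset (Fin n → K)} {H : Submodule K (Fin n → K)}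
    (h : ∀ z ∈ Z, z ∉ H) : ins Z H = 0 := by
  apply Multiset.eq_zero_of_forall_notMem
  intro z hz
  exact h z (mem_ins.1 hz).1 (mem_ins.1 hz).2

theorem out_eq_zero {Z : Multiset (Fin n → K)} {H : Submodule K (Fin n → K)}
    (h : ∀ z ∈ Z, z ∈ H) : out Z H = 0 := by
  apply Multiset.eq_zero_of_forall_notMem
  intro z hz
  exact (mem_out.1 hz).2 (h z (mem_out.1 hz).1)

/-- the lead map kills the parts which do not lie in `H₀` -/
theorem kill (hL : LEAStmt) (k : ℤ) (Z : Multiset (Fin n → K)) (i : ℤ)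
    (H₀ : Submodule K (Fin n → K)) (π : (Fin n → K) →ₗ[K] (Fin n → K)) (h1 : ∀ v, π v ∈ H₀)
    (h2 : ∀ v ∈ H₀, π v = v) (u : ℕ) (hu : ((ins Z H₀).card : ℤ) = u + (k + i))
    (H : Submodule K (Fin n → K)) (hH : ¬ H ≤ H₀) (x : AA K n) (hx : x ∈ OmH k Z H i) :
    ld π u x = 0 := by
  obtain ⟨hLa, -, -, -, -, -, hLt, -⟩ := hL K n
  obtain ⟨hL1, -, -⟩ := hLa H₀ π h1 h2
  unfold OmH at hx
  induction hx using Submodule.span_induction with
  | mem x hx =>
    obtain ⟨B, D, ω, hω, hBD, hB, hBc, rfl⟩ := hx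
    rw [hLt, hL1 D u, TensorProduct.zero_tmul]
    have h3 := congrArg Multiset.card (congrArg (fun Y => ins Y H₀) hBD)
    beta_reduce at h3
    rw [ins_add, Multiset.card_add] at h3
    have h4 := ins_card_lt (B := B) (H := H₀) (by rw [hB]; exact hH)
    omega
  | zero => rw [map_zero]
  | add x y _ _ hx hy => rw [map_add, hx, hy, add_zero]
  | smul a x _ hx => rw [map_smul, hx, smul_zero]

/-- the lead map on the part of `H₀` -/
theorem lead (hL : LEAStmt) (k : ℤ) (Z : Multiset (Fin n → K)) (i : ℤ)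
    (H₀ : Submodule K (Fin n → K)) (π : (Fin n → K) →ₗ[K] (Fin n → K)) (h1 : ∀ v, π v ∈ H₀)
    (h2 : ∀ v ∈ H₀, π v = v) (u : ℕ) (hu : ((ins Z H₀).card : ℤ) = u + (k + i))
    (x : AA K n) (hx : x ∈ Cc k Z H₀ i) :
    ld π u (pm (prodm (out Z H₀)) x) = pm (prodm ((out Z H₀).map (fun v => v - π v))) x := by
  obtain ⟨hLa, -, -, -, -, -, hLt, -⟩ := hL K n
  obtain ⟨-, hL2, -⟩ := hLa H₀ π h1 h2
  unfold Cc OmH at hx
  induction hx using Submodule.span_induction with
  | mem x hx =>
    obtain ⟨B, D, ω, hω, hBD, hB, hBc, rfl⟩ := hx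
    have hD : ∀ z ∈ D, z ∈ H₀ := by
      intro z hz
      have h3 : z ∈ ins Z H₀ := by
        rw [← hBD]
        exact Multiset.mem_add.2 (Or.inr hz)
      exact (mem_ins.1 h3).2
    have ho : ∀ z ∈ out Z H₀, z ∉ H₀ := fun z hz => (mem_out.1 hz).2
    have e1 : ins (D + out Z H₀) H₀ = D := by
      rw [ins_add, ins_eq_self hD, ins_eq_zero ho, add_zero]
    have e2 : out (D + out Z H₀) H₀ = out Z H₀ := by
      rw [out_add, out_eq_zero hD, out_eq_self ho, zero_add]
    have e3 : D.card = u := by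
      have h3 := congrArg Multiset.card hBD
      rw [Multiset.card_add] at h3
      omega
    rw [pm_tmul, pm_tmul, mul_comm, ← prodm_add, hLt]
    have h4 := hL2 (D + out Z H₀)
    rw [e1, e2, e3] at h4
    rw [h4, mul_comm]
  | zero => rw [map_zero, map_zero, map_zero]
  | add x y _ _ hx hy => rw [map_add, map_add, map_add, hx, hy]
  | smul a x _ hx => rw [map_smul, map_smul, map_smul, hx]

/-- the part of `H₀` vanishes if there is no family of the right size -/
theorem Cc_eq_zero (k : ℤ) (Z : Multiset (Fin n → K)) (i : ℤ) (H₀ : Submodule K (Fin n → K))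
    (h : ¬ ∃ u : ℕ, ((ins Z H₀).card : ℤ) = u + (k + i)) (x : AA K n) (hx : x ∈ Cc k Z H₀ i) :
    x = 0 := by
  unfold Cc OmH at hx
  induction hx using Submodule.span_induction with
  | mem x hx =>
    obtain ⟨B, D, ω, hω, hBD, hB, hBc, rfl⟩ := hx
    exfalso
    apply h
    refine ⟨D.card, ?_⟩
    have h3 := congrArg Multiset.card hBD
    rw [Multiset.card_add] at h3
    rw [← hBc, ← h3]
    push_cast
    ring
  | zero => rfl
  | add x y _ _ hx hy => rw [hx, hy, add_zero]
  | smul a x _ hx => rw [hx, smul_zero]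

end

theorem j00 (hL : LEAStmt) (hC : CLOStmt) : J00Stmt := by
  intro K _ n k Z i r f hf hsum H₀
  by_cases hu : ∃ u : ℕ, ((ins Z H₀.1).card : ℤ) = u + (k + i)
  swap
  · exact Cc_eq_zero k Z i H₀.1 hu _ (hf H₀)
  obtain ⟨u, hu⟩ := hu
  obtain ⟨-, -, hproj, -, -, -, -, -⟩ := hL K n
  obtain ⟨π, h1, h2⟩ := hproj H₀.1
  have hne : ∀ H : Submodule K (Fin n → K), r ≤ Module.finrank K H → H ≠ H₀.1 → ¬ H ≤ H₀.1 := by
    intro H hH hne hle
    apply hne
    apply Submodule.eq_of_le_of_finrank_le hle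
    rw [H₀.2]
    exact hH
  have hker : ∀ x ∈ Omge k Z (r + 1) i, ld π u x = 0 := by
    intro x hx
    have h3 : Omge k Z (r + 1) i ≤ LinearMap.ker (ld π u) := by
      unfold Omge
      refine iSup_le fun H => iSup_le fun hH => ?_
      intro y hy
      rw [LinearMap.mem_ker]
      refine kill hL k Z i H₀.1 π h1 h2 u hu H ?_ y hy
      apply hne H (by omega)
      intro heq
      rw [heq, H₀.2] at hH
      omega
    exact LinearMap.mem_ker.1 (h3 hx)
  have h4 := hker _ hsum
  by_contra hcon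
  have hmem : H₀ ∈ f.support := Finsupp.mem_support_iff.2 hcon
  rw [Finsupp.sum, map_sum, Finset.sum_eq_single_of_mem H₀ hmem] at h4
  · rw [lead hL k Z i H₀.1 π h1 h2 u hu _ (hf H₀)] at h4
    apply hcon
    have hP : prodm ((out Z H₀.1).map (fun v => v - π v)) ≠ 0 :=
      ((hL K n).1 H₀.1 π h1 h2).2.2 Z
    apply pm_injective hP
    rw [h4, map_zero]
  · intro H _ hHne
    refine kill hL k Z i H₀.1 π h1 h2 u hu H.1 ?_ _ ?_
    · apply hne H.1 (le_of_eq H.2.symm)
      intro heq
      exact hHne (Subtype.ext heq)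
    · rw [(hC K n k Z).2.2.1 H.1 i]
      exact Submodule.mem_map_of_mem (hf H)

end Pool.Agent.ATB.H10
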